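import Pool.Agent.TH422.MC.Fin

/-!
# The largest complete class of matroids that avoids `M(K_4)`

`K` is the class of the finite matroids with no minor isomorphic to `M(K_4)`.  The definitions are in
`Pool.Agent.TH422.MC.Defs`.
-/

set_option autoImplicit false

namespace Pool.Agent.Results.MP_c5be19_co.LargestClass

open Pool.Agent.TH422.MC

/-- **The largest complete class that contains no copy of `M(K_4)` is the class of the matroids with no
minor isomorphic to `M(K_4)`.**  The matroid `M(K_4)` exists; the class `K` of the finite matroids with no
minor isomorphic to `M(K_4)` is complete (closed under isomorphism, restriction, contraction, duality,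
direct sum, truncation and induction by directed graphs) and contains no copy of `M(K_4)`; and it
contains every complete class with this property. -/
theorem result : (∃ N : Matroid (Fin 6), IsMK4 N) ∧ CompleteAvoiding K ∧
    ∀ 𝒞 : MClass, CompleteAvoiding 𝒞 → ∀ (α : Type) (M : Matroid α), 𝒞 α M → K α M :=
  ⟨exists_isMK4, ⟨isComplete_K, avoid_K⟩, fun _ h α M hM => le_K h α M hM⟩

end Pool.Agent.Results.MP_c5be19_co.LargestClass
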